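import Mathlib
import Pool.Agent.H72.BohrMain

/-!
# The Bohr radius for harmonic mappings with bounded dilatation ratio

For `K > 1` let `k = (K-1)/(K+1)` and let `F_K` be the class of harmonic mappings `f = h + conj g`
of the unit disc with `h, g` analytic, `h 0 = g 0 = 0`, `h` bounded and `|g'| ≤ k |h'|`.
We show that the largest radius for which `∑ (|a_n| + |b_n|) r^n ≤ ‖h‖_∞` for all `f ∈ F_K` is
`r_K = (1/4) √(7/2 - 1/(2K²) + 5/K)`, for every `K > 1`.
-/

namespace Pool.Agent.Results.MP_8fe0b8_an.BohrHarmonicFull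

open Metric Set

/-- The `n`-th Taylor coefficient at `0` of `F`. -/
noncomputable def taylorCoeff (F : ℂ → ℂ) (n : ℕ) : ℂ :=
  iteratedDeriv n F 0 / (n.factorial : ℂ)

/-- `InFK K h g`: the harmonic mapping `f = h + conj g` belongs to the class `F_K`, i.e. `h` and `g`
are analytic in the unit disc, vanish at the origin, `h` is bounded, and
`|g'(z)| ≤ (K-1)/(K+1) * |h'(z)|` for all `|z| < 1`. -/
structure InFK (K : ℝ) (h g : ℂ → ℂ) : Prop where
  h_analytic : AnalyticOnNhd ℂ h (ball 0 1)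
  g_analytic : AnalyticOnNhd ℂ g (ball 0 1)
  h_zero : h 0 = 0
  g_zero : g 0 = 0
  h_bounded : BddAbove ((fun z => ‖h z‖) '' ball 0 1)
  dilatation : ∀ z ∈ ball (0 : ℂ) 1, ‖deriv g z‖ ≤ (K - 1) / (K + 1) * ‖deriv h z‖

/-- `‖h‖_∞`, the supremum of `|h|` over the unit disc. -/
noncomputable def supNorm (h : ℂ → ℂ) : ℝ := sSup ((fun z => ‖h z‖) '' ball 0 1)

/-- The Bohr sum `∑ (|a_n| + |b_n|) r^n`, as an element of `[0, ∞]`.  (The term `n = 0` vanishes
for functions in `F_K`.) -/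
noncomputable def bohrSum (h g : ℂ → ℂ) (r : ℝ) : ENNReal :=
  ∑' n : ℕ, ENNReal.ofReal ((‖taylorCoeff h n‖ + ‖taylorCoeff g n‖) * r ^ n)

/-- The conjectured radius `r_K = (1/4) √(7/2 - 1/(2K²) + 5/K)`. -/
noncomputable def rK (K : ℝ) : ℝ := 1 / 4 * Real.sqrt (7 / 2 - 1 / (2 * K ^ 2) + 5 / K)

open Pool.Agent.H72.BohrMain Pool.Agent.H72

lemma tc_unique {F : ℂ → ℂ} {c : ℕ → ℂ} (hF : DifferentiableOn ℂ F (ball 0 1))
    (hc : ∀ z : ℂ, ‖z‖ < 1 → HasSum (fun n => c n * z ^ n) (F z)) (n : ℕ) : tc F n = c n := by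
  have h1 : ∀ z : ℂ, ‖z‖ < 1 → HasSum (fun n => (c n - tc F n) * z ^ n) 0 := by
    intro z hz
    convert! (hc z hz).sub (tc_hasSum hF hz) using 1
    · funext n; ring
    · ring
  have h2' : ∀ z : ℂ, ‖z‖ < 1 → HasSum (fun n : ℕ => (0:ℂ) * z ^ n) (0:ℂ) := by
    intro z _
    simp
  have hL := L2_comp (G := fun _ => 0) (H := fun _ => 0) h1 h2' (fun _ _ => le_rfl)
    (y := 1 / 2) (by norm_num) (by norm_num)
  obtain ⟨hs, -, hle⟩ := hL
  simp only [norm_zero, ne_eq, OfNat.ofNat_ne_zero, not_false_eq_true, zero_pow, zero_mul,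
    tsum_zero] at hle
  have h3 := hs.le_tsum n (fun j _ => by positivity)
  have h4 : ‖c n - tc F n‖ ^ 2 * (1 / 2 : ℝ) ^ n ≤ 0 := h3.trans hle
  have h5 : ‖c n - tc F n‖ = 0 := by
    by_contra hne
    have : 0 < ‖c n - tc F n‖ ^ 2 * (1 / 2 : ℝ) ^ n := by
      have : 0 < ‖c n - tc F n‖ := lt_of_le_of_ne (norm_nonneg _) (Ne.symm hne)
      positivity
    linarith
  have := norm_eq_zero.mp h5
  linear_combination -this

lemma tc_smul {F : ℂ → ℂ} (hF : DifferentiableOn ℂ F (ball 0 1)) (c : ℂ) (n : ℕ) :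
    tc (fun z => c * F z) n = c * tc F n := by
  refine tc_unique (c := fun n => c * tc F n) (hF.const_mul c) (fun z hz => ?_) n
  convert! (tc_hasSum hF hz).mul_left c using 1
  funext n; ring

/-! ### The number `r_K` -/

/-- `m = (K+1)/(2K)`, so that `1/m = 1 + k`. -/
noncomputable def mK (K : ℝ) : ℝ := (K + 1) / (2 * K)

lemma mK_pos {K : ℝ} (hK : 1 < K) : 0 < mK K := by unfold mK; positivity

lemma mK_lt {K : ℝ} (hK : 1 < K) : mK K < 1 := by
  unfold mK; rw [div_lt_one (by linarith)]; linarith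

lemma mK_gt {K : ℝ} (hK : 1 < K) : 1 / 2 < mK K := by
  unfold mK; rw [lt_div_iff₀ (by linarith)]; linarith

lemma mK_mul {K : ℝ} (hK : 1 < K) : (1 + (K - 1) / (K + 1)) * mK K = 1 := by
  have : K ≠ 0 := by linarith
  have : K + 1 ≠ 0 := by linarith
  unfold mK; field_simp; ring

lemma rK_sq {K : ℝ} (hK : 1 < K) : rK K ^ 2 = (6 * mK K - 1 - mK K ^ 2) / 8 := by
  have hK0 : K ≠ 0 := by linarith
  have h1 : (1 : ℝ) / (2 * K ^ 2) ≤ 1 / 2 := by
    rw [div_le_div_iff₀ (by positivity) (by norm_num)]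
    nlinarith
  have h2 : 0 ≤ 5 / K := by positivity
  have h3 : 0 ≤ 7 / 2 - 1 / (2 * K ^ 2) + 5 / K := by linarith
  unfold rK mK
  rw [mul_pow, Real.sq_sqrt h3]
  field_simp
  ring

lemma rK_pos {K : ℝ} (hK : 1 < K) : 0 < rK K := by
  have h1 : (1 : ℝ) / (2 * K ^ 2) ≤ 1 / 2 := by
    rw [div_le_div_iff₀ (by positivity) (by norm_num)]
    nlinarith
  have h2 : 0 ≤ 5 / K := by positivity
  unfold rK
  have : 0 < 7 / 2 - 1 / (2 * K ^ 2) + 5 / K := by linarith
  positivity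

/-! ### Part (i): the inequality up to `r_K` -/

lemma bohrSum_le_at {K : ℝ} (hK : 1 < K) {h g : ℂ → ℂ} (hf : InFK K h g) :
    bohrSum h g (rK K) ≤ ENNReal.ofReal (supNorm h) := by
  set k := (K - 1) / (K + 1) with hk
  have hk0 : 0 < k := div_pos (by linarith) (by linarith)
  have hkm := mK_mul hK
  rw [← hk] at hkm
  have hr0 := rK_pos hK
  have hr2 := rK_sq hK
  have hm1 := (mK_lt hK).le
  set m := mK K with hm
  set r := rK K with hr
  have hh := hf.h_analytic.differentiableOn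
  have hg := hf.g_analytic.differentiableOn
  have hMle : ∀ z ∈ ball (0:ℂ) 1, ‖h z‖ ≤ supNorm h := fun z hz =>
    le_csSup hf.h_bounded ⟨z, hz, rfl⟩
  have hM0 : 0 ≤ supNorm h := (norm_nonneg _).trans (hMle 0 (mem_ball_self one_pos))
  -- the bound with `M > supNorm h`
  have key : ∀ ε : ℝ, 0 < ε → Summable (fun n => (‖tc h n‖ + ‖tc g n‖) * r ^ n) ∧
      ∑' n, (‖tc h n‖ + ‖tc g n‖) * r ^ n ≤ supNorm h + ε := by
    intro ε hε
    set M := supNorm h + ε with hMdef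
    have hMpos : 0 < M := by linarith
    have hMne : (M : ℂ) ≠ 0 := by exact_mod_cast hMpos.ne'
    have hnM : ‖((M : ℂ))⁻¹‖ = M⁻¹ := by rw [norm_inv, Complex.norm_of_nonneg hMpos.le]
    set h1 : ℂ → ℂ := fun z => (M : ℂ)⁻¹ * h z with hh1
    set g1 : ℂ → ℂ := fun z => ((k * M : ℝ) : ℂ)⁻¹ * g z with hg1
    have dh1 : DifferentiableOn ℂ h1 (ball 0 1) := hh.const_mul _
    have dg1 : DifferentiableOn ℂ g1 (ball 0 1) := hg.const_mul _
    have hb1 : ∀ z ∈ ball (0:ℂ) 1, ‖h1 z‖ ≤ 1 := by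
      intro z hz
      simp only [hh1, norm_mul, hnM]
      rw [inv_mul_le_iff₀ hMpos, mul_one]
      exact (hMle z hz).trans (by linarith)
    have hd1 : ∀ z ∈ ball (0:ℂ) 1, ‖deriv g1 z‖ ≤ ‖deriv h1 z‖ := by
      intro z hz
      have e1 : deriv h1 z = (M : ℂ)⁻¹ * deriv h z :=
        deriv_const_mul _ (hh.differentiableAt (isOpen_ball.mem_nhds hz))
      have e2 : deriv g1 z = ((k * M : ℝ) : ℂ)⁻¹ * deriv g z :=
        deriv_const_mul _ (hg.differentiableAt (isOpen_ball.mem_nhds hz))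
      rw [e1, e2, norm_mul, norm_mul, hnM, norm_inv, Complex.norm_of_nonneg (by positivity)]
      have := hf.dilatation z hz
      rw [← hk] at this
      rw [inv_mul_le_iff₀ (by positivity)]
      calc ‖deriv g z‖ ≤ k * ‖deriv h z‖ := this
        _ = k * M * (M⁻¹ * ‖deriv h z‖) := by field_simp
    have h10 : h1 0 = 0 := by simp [hh1, hf.h_zero]
    have g10 : g1 0 = 0 := by simp [hg1, hf.g_zero]
    have A := bohr_main dh1 dh1 h10 h10 hb1 (fun _ _ => le_rfl) hm1 hr0 hr2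
    have B := bohr_main dh1 dg1 h10 g10 hb1 hd1 hm1 hr0 hr2
    have eA : ∀ n, ‖tc h1 n‖ * r ^ n = M⁻¹ * (‖tc h n‖ * r ^ n) := by
      intro n; rw [hh1, tc_smul hh, norm_mul, hnM]; ring
    have eB : ∀ n, ‖tc g1 n‖ * r ^ n = (k * M)⁻¹ * (‖tc g n‖ * r ^ n) := by
      intro n
      rw [hg1, tc_smul hg, norm_mul, norm_inv, Complex.norm_of_nonneg (by positivity)]; ring
    simp only [eA] at A
    simp only [eB] at B
    obtain ⟨sA, hA⟩ := A
    obtain ⟨sB, hB⟩ := B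
    have sA' : Summable (fun n => ‖tc h n‖ * r ^ n) := by
      refine (sA.mul_left M).congr fun n => ?_
      field_simp
    have sB' : Summable (fun n => ‖tc g n‖ * r ^ n) := by
      refine (sB.mul_left (k * M)).congr fun n => ?_
      field_simp
    rw [tsum_mul_left, inv_mul_le_iff₀ hMpos] at hA
    rw [tsum_mul_left, inv_mul_le_iff₀ (by positivity)] at hB
    have e : (fun n => (‖tc h n‖ + ‖tc g n‖) * r ^ n)
        = fun n => ‖tc h n‖ * r ^ n + ‖tc g n‖ * r ^ n := by funext n; ring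
    rw [e]
    refine ⟨sA'.add sB', ?_⟩
    rw [sA'.tsum_add sB']
    calc ∑' n, ‖tc h n‖ * r ^ n + ∑' n, ‖tc g n‖ * r ^ n ≤ M * m + k * M * m := add_le_add hA hB
      _ = M * ((1 + k) * m) := by ring
      _ = M := by rw [hkm, mul_one]
  have hS := (key 1 one_pos).1
  have hle : ∑' n, (‖tc h n‖ + ‖tc g n‖) * r ^ n ≤ supNorm h :=
    le_of_forall_pos_le_add fun ε hε => (key ε hε).2
  have eb : bohrSum h g r = ENNReal.ofReal (∑' n, (‖tc h n‖ + ‖tc g n‖) * r ^ n) := by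
    rw [ENNReal.ofReal_tsum_of_nonneg (fun n => by positivity) hS]
    rfl
  rw [eb]
  exact ENNReal.ofReal_le_ofReal hle

lemma bohrSum_mono (h g : ℂ → ℂ) {r r' : ℝ} (hr : 0 ≤ r) (hrr : r ≤ r') :
    bohrSum h g r ≤ bohrSum h g r' := by
  unfold bohrSum
  refine ENNReal.tsum_le_tsum fun n => ENNReal.ofReal_le_ofReal ?_
  exact mul_le_mul_of_nonneg_left (pow_le_pow_left₀ hr hrr n) (by positivity)

/-! ### Part (ii): sharpness -/

/-- The extremal `h(z) = z (z - a)/(1 - a z)`. -/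
noncomputable def hex (a : ℝ) (z : ℂ) : ℂ := z * (z - a) / (1 - a * z)

/-- Its Taylor coefficients. -/
noncomputable def cex (a : ℝ) : ℕ → ℂ
  | 0 => 0
  | 1 => -(a : ℂ)
  | n + 2 => ((1 - a ^ 2) * a ^ n : ℝ)

section Ex

variable {a : ℝ} (ha0 : 0 < a) (ha1 : a < 1)

include ha0 ha1

lemma den_ne {z : ℂ} (hz : ‖z‖ < 1) : (1 : ℂ) - a * z ≠ 0 := by
  intro h
  have h1 : (a : ℂ) * z = 1 := by linear_combination -h
  have h2 : ‖(a : ℂ) * z‖ < 1 := by
    rw [norm_mul, Complex.norm_of_nonneg ha0.le]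
    nlinarith [norm_nonneg z]
  rw [h1, norm_one] at h2
  exact lt_irrefl _ h2

lemma hex_diff : DifferentiableOn ℂ (hex a) (ball 0 1) := by
  intro z hz
  have hne := den_ne ha0 ha1 (z := z) (by simpa using hz)
  have d1 : DifferentiableAt ℂ (fun z : ℂ => z * (z - (a : ℂ))) z := by fun_prop
  have d2 : DifferentiableAt ℂ (fun z : ℂ => 1 - (a : ℂ) * z) z := by fun_prop
  exact (d1.fun_div d2 hne).differentiableWithinAt

lemma hex_hasSum {z : ℂ} (hz : ‖z‖ < 1) : HasSum (fun n => cex a n * z ^ n) (hex a z) := by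
  have haz : ‖(a : ℂ) * z‖ < 1 := by
    rw [norm_mul, Complex.norm_of_nonneg ha0.le]
    nlinarith [norm_nonneg z]
  have h1 := (hasSum_geometric_of_norm_lt_one haz).mul_left ((1 - (a:ℂ) ^ 2) * z ^ 2)
  rw [← hasSum_nat_add_iff' 2]
  have hne := den_ne ha0 ha1 hz
  convert! h1 using 1
  · funext n
    simp only [cex]
    push_cast
    rw [mul_pow]; ring
  · rw [Finset.sum_range_succ, Finset.sum_range_one]
    simp only [cex, hex]
    rw [← div_eq_mul_inv]
    rw [eq_div_iff hne, sub_mul, div_mul_cancel₀ _ hne]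
    ring

lemma hex_le {z : ℂ} (hz : ‖z‖ < 1) : ‖hex a z‖ ≤ 1 := by
  have h1 := BohrPick.norm_sub_le_norm_one_sub (w := z) (c := (a : ℂ)) hz.le
    (by rw [Complex.norm_of_nonneg ha0.le]; exact ha1.le)
  rw [Complex.conj_ofReal] at h1
  have hne := den_ne ha0 ha1 hz
  unfold hex
  rw [norm_div, norm_mul]
  refine div_le_one_of_le₀ ?_ (norm_nonneg _)
  calc ‖z‖ * ‖z - a‖ ≤ 1 * ‖z - a‖ := mul_le_mul_of_nonneg_right hz.le (norm_nonneg _)
    _ ≤ _ := by rw [one_mul]; exact h1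

lemma hex_tc (n : ℕ) : tc (hex a) n = cex a n :=
  tc_unique (hex_diff ha0 ha1) (fun _ hz => hex_hasSum ha0 ha1 hz) n

lemma cex_norm_sum {r : ℝ} (hr0 : 0 ≤ r) (har : a * r < 1) :
    HasSum (fun n => ‖cex a n‖ * r ^ n) (a * r + (1 - a ^ 2) * r ^ 2 / (1 - a * r)) := by
  rw [← hasSum_nat_add_iff' 2]
  have h1 := (hasSum_geometric_of_lt_one (mul_nonneg ha0.le hr0) har).mul_left ((1 - a ^ 2) * r ^ 2)
  convert! h1 using 1
  · funext n
    simp only [cex]
    rw [Complex.norm_of_nonneg (mul_nonneg (by nlinarith) (pow_nonneg ha0.le n)), mul_pow]; ring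
  · rw [Finset.sum_range_succ, Finset.sum_range_one]
    simp only [cex, norm_zero, norm_neg, Complex.norm_of_nonneg ha0.le]
    rw [div_eq_mul_inv]; ring

end Ex

/-- the parameter of the extremal function -/
noncomputable def aK (K : ℝ) : ℝ := (1 + mK K) / (4 * rK K)

lemma aK_mul {K : ℝ} (hK : 1 < K) : aK K * rK K = (1 + mK K) / 4 := by
  have := (rK_pos hK).ne'
  unfold aK; field_simp

lemma aK_pos {K : ℝ} (hK : 1 < K) : 0 < aK K := by
  have := rK_pos hK
  have := mK_pos hK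
  unfold aK; positivity

lemma aK_lt {K : ℝ} (hK : 1 < K) : aK K < 1 := by
  have hr := rK_pos hK
  have h2 := rK_sq hK
  have hm1 := mK_gt hK
  have hm2 := mK_lt hK
  unfold aK
  rw [div_lt_one (by positivity)]
  by_contra hcon
  push Not at hcon
  have h3 : (4 * rK K) ^ 2 ≤ (1 + mK K) ^ 2 := by gcongr
  rw [mul_pow, h2] at h3
  nlinarith

lemma hex_inFK {K : ℝ} (hK : 1 < K) :
    InFK K (hex (aK K)) (fun z => (((K - 1) / (K + 1) : ℝ) : ℂ) * hex (aK K) z) := by
  have ha0 := aK_pos hK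
  have ha1 := aK_lt hK
  have hd := hex_diff ha0 ha1
  refine ⟨hd.analyticOnNhd isOpen_ball, (hd.const_mul _).analyticOnNhd isOpen_ball, ?_, ?_, ?_, ?_⟩
  · simp [hex]
  · simp [hex]
  · refine ⟨1, ?_⟩
    rintro _ ⟨z, hz, rfl⟩
    exact hex_le ha0 ha1 (by simpa using hz)
  · intro z hz
    have e : deriv (fun z => (((K - 1) / (K + 1) : ℝ) : ℂ) * hex (aK K) z) z
        = (((K - 1) / (K + 1) : ℝ) : ℂ) * deriv (hex (aK K)) z :=
      deriv_const_mul _ (hd.differentiableAt (isOpen_ball.mem_nhds hz))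
    have hk0 : 0 < (K - 1) / (K + 1) := div_pos (by linarith) (by linarith)
    rw [e, norm_mul, Complex.norm_of_nonneg hk0.le]

lemma supNorm_hex {K : ℝ} (hK : 1 < K) : supNorm (hex (aK K)) ≤ 1 := by
  refine csSup_le ⟨_, 0, mem_ball_self one_pos, rfl⟩ ?_
  rintro _ ⟨z, hz, rfl⟩
  exact hex_le (aK_pos hK) (aK_lt hK) (by simpa using hz)

lemma one_lt_bohrSum {K : ℝ} (hK : 1 < K) {r : ℝ} (hr : rK K < r) :
    1 < bohrSum (hex (aK K)) (fun z => (((K - 1) / (K + 1) : ℝ) : ℂ) * hex (aK K) z) r := by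
  have ha0 := aK_pos hK
  have ha1 := aK_lt hK
  have hr0 := rK_pos hK
  have har := aK_mul hK
  have hm1 := mK_gt hK
  have hm2 := mK_lt hK
  have hk0 : 0 < (K - 1) / (K + 1) := div_pos (by linarith) (by linarith)
  have hkm := mK_mul hK
  have hr2 := rK_sq hK
  set k := (K - 1) / (K + 1) with hk
  have ec : ∀ n : ℕ, ‖tc (hex (aK K)) n‖ + ‖tc (fun z => ((k : ℝ) : ℂ) * hex (aK K) z) n‖
      = (1 + k) * ‖cex (aK K) n‖ := by
    intro n
    rw [tc_smul (hex_diff ha0 ha1), norm_mul, Complex.norm_of_nonneg hk0.le, hex_tc ha0 ha1]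
    ring
  have eb : ∀ t : ℝ, bohrSum (hex (aK K)) (fun z => ((k : ℝ) : ℂ) * hex (aK K) z) t
      = ∑' n, ENNReal.ofReal ((1 + k) * ‖cex (aK K) n‖ * t ^ n) := by
    intro t
    unfold bohrSum
    refine tsum_congr fun n => ?_
    congr 1
    rw [← ec n]
    rfl
  -- value at `r_K`
  have harlt : aK K * rK K < 1 := by rw [har]; linarith
  have hsum := (cex_norm_sum ha0 ha1 hr0.le harlt).mul_left (1 + k)
  have hval : (1 + k) * (aK K * rK K + (1 - aK K ^ 2) * rK K ^ 2 / (1 - aK K * rK K)) = 1 := by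
    have h1 : aK K * rK K + (1 - aK K ^ 2) * rK K ^ 2 / (1 - aK K * rK K) = mK K := by
      have h2 : (1 - aK K ^ 2) * rK K ^ 2 = rK K ^ 2 - (aK K * rK K) ^ 2 := by ring
      rw [h2, har, hr2]
      have h3 : (3 : ℝ) - mK K ≠ 0 := by
        have : 0 < (3 : ℝ) - mK K := by linarith
        exact this.ne'
      have h4 : (1 : ℝ) - (1 + mK K) / 4 = (3 - mK K) / 4 := by ring
      rw [h4]
      field_simp
      ring
    rw [h1, hkm]
  rw [hval] at hsum
  have hs1 : ∑' n, ENNReal.ofReal ((1 + k) * ‖cex (aK K) n‖ * rK K ^ n) = 1 := by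
    have e1 : ∀ n, (1 + k) * ‖cex (aK K) n‖ * rK K ^ n = (1 + k) * (‖cex (aK K) n‖ * rK K ^ n) := by
      intro n; ring
    simp only [e1]
    rw [← ENNReal.ofReal_tsum_of_nonneg (fun n => by positivity) hsum.summable, hsum.tsum_eq]
    simp
  rw [eb, ← hs1]
  refine ENNReal.tsum_lt_tsum (i := 1) (by rw [hs1]; exact ENNReal.one_ne_top) (fun n => ?_) ?_
  · refine ENNReal.ofReal_le_ofReal ?_
    exact mul_le_mul_of_nonneg_left (pow_le_pow_left₀ hr0.le hr.le n) (by positivity)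
  · have hpos : 0 < (1 + k) * ‖cex (aK K) 1‖ := by
      have : 0 < ‖cex (aK K) 1‖ := by
        simp only [cex, norm_neg, Complex.norm_of_nonneg ha0.le]
        exact ha0
      positivity
    rw [pow_one, pow_one]
    exact (ENNReal.ofReal_lt_ofReal_iff (mul_pos hpos (hr0.trans hr))).mpr
      (mul_lt_mul_of_pos_left hr hpos)

/-- **The Bohr radius of the class `F_K` is `r_K` for every `K > 1`.**  For `K > 1` and `r ≥ 0` the
inequality `∑ (|a_n| + |b_n|) r^n ≤ ‖h‖_∞` holds for all `f = h + conj g ∈ F_K` if and only if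
`r ≤ r_K`. -/
theorem result (K : ℝ) (hK : 1 < K) (r : ℝ) (hr : 0 ≤ r) :
    (∀ h g : ℂ → ℂ, InFK K h g → bohrSum h g r ≤ ENNReal.ofReal (supNorm h)) ↔ r ≤ rK K := by
  constructor
  · intro hall
    by_contra hcon
    push Not at hcon
    have h1 := hall _ _ (hex_inFK hK)
    have h2 := one_lt_bohrSum hK hcon
    have h3 : ENNReal.ofReal (supNorm (hex (aK K))) ≤ 1 := by
      rw [← ENNReal.ofReal_one]
      exact ENNReal.ofReal_le_ofReal (supNorm_hex hK)
    exact absurd (h2.trans_le (h1.trans h3)) (lt_irrefl _)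
  · intro hrr h g hf
    exact (bohrSum_mono h g hr hrr).trans (bohrSum_le_at hK hf)

end Pool.Agent.Results.MP_8fe0b8_an.BohrHarmonicFull
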